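import Pool.Agent.X198.GH

/-!
# Two non-isometric metric spaces with closed discrete distance sets at distance zero
-/

set_option autoImplicit false
set_option linter.style.haveILetI false

namespace Pool.Agent.Results.MP_1d6438_gt.NotUnique

open Set Metric Pool.Agent.X198.GH

/-- The distance set of a metric space. -/
def distSet (X : Type) [MetricSpace X] : Set ℝ := {r | ∃ x y : X, r = dist x y}

/-- The bouquet of branches with heights `b k n`. -/
structure Bq (K : Type) (b : K → ℕ → ℝ) where
  /-- the underlying point -/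
  pt : Option (K × ℕ)

variable {K : Type} {b : K → ℕ → ℝ}

/-- the height of a point -/
def ht (b : K → ℕ → ℝ) : Option (K × ℕ) → ℝ
  | none => 0
  | some (k, n) => b k n

/-- the branch of a point -/
def br : Option (K × ℕ) → Option K := Option.map Prod.fst

open Classical in
/-- the distance -/
noncomputable def dd (b : K → ℕ → ℝ) (x y : Option (K × ℕ)) : ℝ :=
  if x = y then 0 else if br x = br y then max (ht b x) (ht b y) else ht b x + ht b y

theorem ht_nonneg (hb : ∀ k n, 0 < b k n) (x : Option (K × ℕ)) : 0 ≤ ht b x := by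
  rcases x with _ | ⟨k, n⟩
  · exact le_refl 0
  · exact (hb k n).le

theorem dd_self (x : Option (K × ℕ)) : dd b x x = 0 := by simp [dd]

theorem dd_comm (x y : Option (K × ℕ)) : dd b x y = dd b y x := by
  unfold dd
  by_cases h : x = y
  · subst h; rfl
  · rw [if_neg h, if_neg (Ne.symm h)]
    by_cases h' : br x = br y
    · rw [if_pos h', if_pos h'.symm, max_comm]
    · rw [if_neg h', if_neg (Ne.symm h'), add_comm]

theorem le_dd (hb : ∀ k n, 0 < b k n) {x y : Option (K × ℕ)} (h : x ≠ y) :
    ht b x ≤ dd b x y := by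
  unfold dd
  rw [if_neg h]
  split_ifs
  · exact le_max_left _ _
  · linarith [ht_nonneg hb y]

theorem dd_le (hb : ∀ k n, 0 < b k n) (x y : Option (K × ℕ)) :
    dd b x y ≤ ht b x + ht b y := by
  have h1 := ht_nonneg hb x
  have h2 := ht_nonneg hb y
  unfold dd
  split_ifs
  · linarith
  · exact max_le (by linarith) (by linarith)
  · exact le_refl _

theorem dd_pos (hb : ∀ k n, 0 < b k n) {x y : Option (K × ℕ)} (h : x ≠ y) : 0 < dd b x y := by
  rcases x with _ | ⟨k, n⟩
  · rcases y with _ | ⟨l, m⟩
    · exact absurd rfl h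
    · have := le_dd hb h.symm
      rw [dd_comm]
      exact (hb l m).trans_le this
  · exact (hb k n).trans_le (le_dd hb h)

theorem dd_nonneg (hb : ∀ k n, 0 < b k n) (x y : Option (K × ℕ)) : 0 ≤ dd b x y := by
  by_cases h : x = y
  · subst h; rw [dd_self]
  · exact (dd_pos hb h).le

theorem dd_triangle (hb : ∀ k n, 0 < b k n) (x y z : Option (K × ℕ)) :
    dd b x z ≤ dd b x y + dd b y z := by
  by_cases h1 : x = y
  · subst h1; rw [dd_self, zero_add]
  by_cases h2 : y = z
  · subst h2; rw [dd_self, add_zero]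
  have h3 := le_dd hb h1
  have h4 := le_dd hb (Ne.symm h2)
  rw [dd_comm] at h4
  linarith [dd_le hb x z]

/-- the metric space -/
@[reducible] noncomputable def msBq (b : K → ℕ → ℝ) (hb : ∀ k n, 0 < b k n) :
    MetricSpace (Bq K b) where
  dist x y := dd b x.pt y.pt
  dist_self x := dd_self x.pt
  dist_comm x y := dd_comm x.pt y.pt
  dist_triangle x y z := dd_triangle hb x.pt y.pt z.pt
  eq_of_dist_eq_zero := by
    intro x y h
    by_contra hne
    have h1 : x.pt ≠ y.pt := by
      intro h2
      apply hne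
      cases x; cases y
      simpa using h2
    exact (dd_pos hb h1).ne' h

/-- the heights of the branches of the smaller space -/
noncomputable def bY (k n : ℕ) : ℝ := if n ≤ k then (n + 1 : ℝ) else (n + 1 : ℝ) + 1 / (k + 2)

/-- the heights of the branches of the larger space -/
noncomputable def bX : Option ℕ → ℕ → ℝ
  | none, n => n + 1
  | some k, n => bY k n

theorem bY_ge (k n : ℕ) : (n + 1 : ℝ) ≤ bY k n := by
  unfold bY
  split_ifs
  · exact le_refl _
  · have : (0 : ℝ) < 1 / (k + 2) := by positivity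
    linarith

theorem bY_le (k n : ℕ) : bY k n ≤ (n + 1 : ℝ) + 1 / (k + 2) := by
  have : (0 : ℝ) < 1 / (k + 2) := by positivity
  unfold bY
  split_ifs
  · linarith
  · exact le_refl _

theorem bY_pos (k n : ℕ) : 0 < bY k n := by
  have := bY_ge k n
  have : (0 : ℝ) ≤ n := Nat.cast_nonneg n
  linarith

theorem bX_pos (k : Option ℕ) (n : ℕ) : 0 < bX k n := by
  rcases k with _ | k
  · change (0 : ℝ) < n + 1
    positivity
  · exact bY_pos k n

/-- values of the heights in a bounded range -/
theorem finite_vals (R : ℝ) : {r | r ≤ R ∧ ∃ (k : Option ℕ) (n : ℕ), r = bX k n}.Finite := by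
  obtain ⟨N, hN⟩ := exists_nat_gt R
  have hf1 : ((fun n : ℕ => (n + 1 : ℝ)) '' (Iic N)).Finite := (finite_Iic N).image _
  have hf2 : ((fun p : ℕ × ℕ => ((p.1 + 1 : ℝ) + 1 / (p.2 + 2))) '' (Iic N ×ˢ Iic N)).Finite :=
    ((finite_Iic N).prod (finite_Iic N)).image _
  refine (hf1.union hf2).subset ?_
  rintro r ⟨hr, k, n, rfl⟩
  have hn : (n + 1 : ℝ) ≤ bX k n := by
    rcases k with _ | k
    · exact le_refl _
    · exact bY_ge k n
  have hnN : n ≤ N := by
    have : (n : ℝ) < N := by linarith
    exact_mod_cast this.le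
  rcases k with _ | k
  · exact Or.inl ⟨n, hnN, rfl⟩
  · by_cases h : n ≤ k
    · left
      refine ⟨n, hnN, ?_⟩
      change _ = bY k n
      rw [bY, if_pos h]
    · right
      refine ⟨(n, k), ⟨hnN, (le_of_lt (not_le.1 h)).trans hnN⟩, ?_⟩
      change _ = bY k n
      rw [bY, if_neg h]

/-- Spaces with such heights have closed discrete distance sets. -/
theorem distSet_closed_discrete (hb : ∀ k n, 0 < b k n)
    (hfin : ∀ R : ℝ, {r | r ≤ R ∧ ∃ k n, r = b k n}.Finite) :
    IsClosed (@distSet (Bq K b) (msBq b hb)) ∧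
      DiscreteTopology (@distSet (Bq K b) (msBq b hb)) := by
  letI := msBq b hb
  have hD : ∀ R : ℝ, (distSet (Bq K b) ∩ Iic R).Finite := by
    intro R
    have h0 := (hfin R).insert 0
    refine (Finite.image2 (fun a b => a + b) h0 h0).subset ?_
    rintro r ⟨⟨x, y, rfl⟩, hr⟩
    have hmem : ∀ z : Option (K × ℕ), ht b z ≤ R →
        ht b z ∈ insert 0 {r | r ≤ R ∧ ∃ k n, r = b k n} := by
      intro z hz
      rcases z with _ | ⟨k, n⟩
      · exact Or.inl rfl
      · exact Or.inr ⟨hz, k, n, rfl⟩
    change dd b x.pt y.pt ≤ R at hr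
    change dd b x.pt y.pt ∈ _
    by_cases hxy : x.pt = y.pt
    · rw [hxy, dd_self]
      exact ⟨0, Or.inl rfl, 0, Or.inl rfl, add_zero 0⟩
    · have h1 := (le_dd hb hxy).trans hr
      have h2 : ht b y.pt ≤ R := by
        have := le_dd hb (Ne.symm hxy)
        rw [dd_comm] at this
        exact this.trans hr
      by_cases hbr : br x.pt = br y.pt
      · have h3 : dd b x.pt y.pt = max (ht b x.pt) (ht b y.pt) := by
          rw [dd, if_neg hxy, if_pos hbr]
        rw [h3]
        rcases max_choice (ht b x.pt) (ht b y.pt) with h | h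
        · rw [h]
          exact ⟨_, hmem _ h1, 0, Or.inl rfl, add_zero _⟩
        · rw [h]
          exact ⟨_, hmem _ h2, 0, Or.inl rfl, add_zero _⟩
      · have h3 : dd b x.pt y.pt = ht b x.pt + ht b y.pt := by
          rw [dd, if_neg hxy, if_neg hbr]
        rw [h3]
        exact ⟨_, hmem _ h1, _, hmem _ h2, rfl⟩
  suffices h : IsClosed (distSet (Bq K b)) ∧ IsDiscrete (distSet (Bq K b)) from
    ⟨h.1, isDiscrete_iff_discreteTopology.1 h.2⟩
  rw [isClosed_and_discrete_iff]
  intro x
  have h1 := hD (x + 1)
  have h2 : ((distSet (Bq K b) ∩ Iic (x + 1)) \ {x}).Finite := h1.subset sdiff_subset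
  have h3 : ((distSet (Bq K b) ∩ Iic (x + 1)) \ {x})ᶜ ∈ nhds x :=
    h2.isClosed.isOpen_compl.mem_nhds fun h => h.2 rfl
  have h4 : Iio (x + 1) ∈ nhds x := Iio_mem_nhds (by linarith)
  rw [Filter.disjoint_principal_right, mem_nhdsWithin_iff_exists_mem_nhds_inter]
  refine ⟨_, Filter.inter_mem h3 h4, ?_⟩
  rintro y ⟨⟨hy1, hy2⟩, hy3⟩ hy4
  exact hy1 ⟨⟨hy4, le_of_lt (show y < x + 1 from hy2)⟩, hy3⟩

/-- the bijection of branch indices -/
def tau (N : ℕ) : Option ℕ → ℕ
  | none => N
  | some k => if k < N then k else k + 1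

theorem tau_inj (N : ℕ) : Function.Injective (tau N) := by
  intro a c h
  rcases a with _ | a <;> rcases c with _ | c
  · rfl
  · simp only [tau] at h
    split_ifs at h <;> omega
  · simp only [tau] at h
    split_ifs at h <;> omega
  · simp only [tau] at h
    have : a = c := by
      split_ifs at h <;> omega
    rw [this]

theorem tau_surj (N : ℕ) : Function.Surjective (tau N) := by
  intro k
  rcases lt_trichotomy k N with h | h | h
  · exact ⟨some k, by simp [tau, h]⟩
  · exact ⟨none, h.symm⟩
  · refine ⟨some (k - 1), ?_⟩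
    have h1 : ¬ (k - 1 < N) := by omega
    simp only [tau, if_neg h1]
    omega

theorem inv_le_aux {N k : ℕ} (h : N ≤ k) : (1 : ℝ) / (k + 2) ≤ 1 / (N + 2) := by
  have : (N : ℝ) ≤ k := by exact_mod_cast h
  exact one_div_le_one_div_of_le (by positivity) (by linarith)

theorem close (N : ℕ) (k : Option ℕ) (n : ℕ) : |bX k n - bY (tau N k) n| ≤ 1 / (N + 2) := by
  have hpos : (0 : ℝ) < 1 / (N + 2) := by positivity
  rcases k with _ | k
  · have h1 := bY_ge N n
    have h2 := bY_le N n
    change |((n : ℝ) + 1) - bY N n| ≤ _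
    rw [abs_le]
    constructor <;> linarith
  · change |bY k n - bY (tau N (some k)) n| ≤ _
    by_cases h : k < N
    · simp only [tau, if_pos h, sub_self, abs_zero]
      exact hpos.le
    · simp only [tau, if_neg h]
      have h1 := bY_ge k n
      have h2 := bY_le k n
      have h3 := bY_ge (k + 1) n
      have h4 := bY_le (k + 1) n
      have h5 := inv_le_aux (not_lt.1 h)
      have h6 : (1 : ℝ) / ((k + 1 : ℕ) + 2) ≤ 1 / (N + 2) :=
        inv_le_aux ((not_lt.1 h).trans (Nat.le_succ k))
      rw [abs_le]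
      constructor <;> linarith

/-- the bijection -/
def phi (N : ℕ) : Option (Option ℕ × ℕ) → Option (ℕ × ℕ) := Option.map (Prod.map (tau N) id)

theorem phi_inj (N : ℕ) : Function.Injective (phi N) :=
  Option.map_injective ((tau_inj N).prodMap Function.injective_id)

theorem phi_surj (N : ℕ) : Function.Surjective (phi N) := by
  intro y
  rcases y with _ | ⟨k, n⟩
  · exact ⟨none, rfl⟩
  · obtain ⟨l, hl⟩ := tau_surj N k
    exact ⟨some (l, n), by simp [phi, hl]⟩

theorem ht_phi (N : ℕ) (x : Option (Option ℕ × ℕ)) :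
    |ht bX x - ht bY (phi N x)| ≤ 1 / (N + 2) := by
  rcases x with _ | ⟨k, n⟩
  · change |(0 : ℝ) - 0| ≤ _
    rw [sub_zero, abs_zero]
    positivity
  · exact close N k n

theorem br_phi (N : ℕ) (x y : Option (Option ℕ × ℕ)) :
    br (phi N x) = br (phi N y) ↔ br x = br y := by
  rcases x with _ | ⟨k, n⟩ <;> rcases y with _ | ⟨l, m⟩ <;> simp [br, phi, (tau_inj N).eq_iff]

theorem dd_phi (N : ℕ) (x y : Option (Option ℕ × ℕ)) :
    |dd bX x y - dd bY (phi N x) (phi N y)| ≤ 2 * (1 / (N + 2)) := by
  have hpos : (0 : ℝ) < 1 / (N + 2) := by positivity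
  have hx := abs_le.1 (ht_phi N x)
  have hy := abs_le.1 (ht_phi N y)
  by_cases h : x = y
  · subst h
    rw [dd_self, dd_self, sub_zero, abs_zero]
    linarith
  · have h' : phi N x ≠ phi N y := fun h2 => h (phi_inj N h2)
    by_cases hb : br x = br y
    · have hb' := (br_phi N x y).2 hb
      rw [dd, dd, if_neg h, if_neg h', if_pos hb, if_pos hb']
      refine (abs_max_sub_max_le_max _ _ _ _).trans (max_le ?_ ?_)
      · linarith [ht_phi N x]
      · linarith [ht_phi N y]
    · have hb' : ¬ br (phi N x) = br (phi N y) := fun h2 => hb ((br_phi N x y).1 h2)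
      rw [dd, dd, if_neg h, if_neg h', if_neg hb, if_neg hb', abs_le]
      constructor <;> linarith [hx.1, hx.2, hy.1, hy.2]

/-- Two metric spaces with closed discrete distance sets at Gromov-Hausdorff distance zero need not
be isometric. -/
theorem result :
    ∃ (X Y : Type) (_ : MetricSpace X) (_ : MetricSpace Y),
      (IsClosed (distSet X) ∧ DiscreteTopology (distSet X)) ∧ ghE X Y = 0 ∧
      IsEmpty (X ≃ᵢ Y) := by
  letI m1 := msBq bX bX_pos
  letI m2 := msBq bY bY_pos
  refine ⟨Bq (Option ℕ) bX, Bq ℕ bY, m1, m2, ?_, ?_, ⟨fun e => ?_⟩⟩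
  · exact distSet_closed_discrete bX_pos finite_vals
  · refine le_antisymm ?_ bot_le
    have h1 : ∀ N : ℕ, ghE (Bq (Option ℕ) bX) (Bq ℕ bY) ≤ ENNReal.ofReal (1 / ((N : ℝ) + 2)) := by
      intro N
      have : Nonempty (Bq (Option ℕ) bX) := ⟨⟨none⟩⟩
      refine ghE_le (W := Bq (Option ℕ) bX) id (fun x => ⟨phi N x.pt⟩) Function.surjective_id ?_
        (by positivity) ?_
      · rintro ⟨y⟩
        obtain ⟨x, hx⟩ := phi_surj N y
        exact ⟨⟨x⟩, by simp only [hx]⟩
      · intro p q
        exact dd_phi N p.pt q.pt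
    refine ge_of_tendsto' ?_ h1 (x := Filter.atTop)
    have h2 : Filter.Tendsto (fun N : ℕ => (1 : ℝ) / ((N : ℝ) + 2)) Filter.atTop (nhds 0) := by
      refine tendsto_const_nhds.div_atTop ?_
      exact Filter.tendsto_atTop_add_const_right _ _ tendsto_natCast_atTop_atTop
    have h3 := ENNReal.tendsto_ofReal h2
    rwa [ENNReal.ofReal_zero] at h3
  · have hdist : ∀ x y, dd bY (e ⟨x⟩).pt (e ⟨y⟩).pt = dd bX x y := fun x y =>
      e.dist_eq ⟨x⟩ ⟨y⟩
    have hinj : ∀ x y, (e ⟨x⟩).pt = (e ⟨y⟩).pt → x = y := by
      intro x y h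
      have h1 := hdist x y
      rw [h, dd_self] at h1
      by_contra hne
      exact (dd_pos bX_pos hne).ne h1
    -- the base point goes to the base point
    have h0 : (e ⟨none⟩).pt = none := by
      have key : ∀ (p : Option (ℕ × ℕ)), p ≠ none → ∀ q, dd bY p q = 1 → q = none := by
        intro p hp q hpq
        by_contra hq
        rcases p with _ | ⟨k, n⟩
        · exact hp rfl
        rcases q with _ | ⟨l, m⟩
        · exact hq rfl
        have hne : (some (k, n) : Option (ℕ × ℕ)) ≠ some (l, m) := by
          intro h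
          rw [h, dd_self] at hpq
          exact zero_ne_one hpq
        have h1 := le_dd bY_pos hne
        have h2 := le_dd bY_pos hne.symm
        rw [dd_comm] at h2
        rw [hpq] at h1 h2
        change bY k n ≤ 1 at h1
        change bY l m ≤ 1 at h2
        have h3 := bY_ge k n
        have h4 := bY_ge l m
        have hn : n = 0 := by
          have : (n : ℝ) ≤ 0 := by linarith
          exact_mod_cast le_antisymm this (Nat.cast_nonneg n)
        have hm : m = 0 := by
          have : (m : ℝ) ≤ 0 := by linarith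
          exact_mod_cast le_antisymm this (Nat.cast_nonneg m)
        subst hn hm
        have hb : ¬ br (some (k, 0) : Option (ℕ × ℕ)) = br (some (l, 0)) := by
          intro h
          apply hne
          have : k = l := by simpa [br] using h
          rw [this]
        rw [dd, if_neg hne, if_neg hb] at hpq
        change bY k 0 + bY l 0 = 1 at hpq
        linarith
      by_contra hne
      have h1 := key _ hne (e ⟨some (none, 0)⟩).pt (by
        rw [hdist]
        simp [dd, br, ht, bX])
      have h2 := key _ hne (e ⟨some (some 0, 0)⟩).pt (by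
        rw [hdist]
        simp [dd, br, ht, bX, bY])
      have h3 := hinj _ _ (h1.trans h2.symm)
      simp at h3
    have hht : ∀ x, ht bY (e ⟨x⟩).pt = ht bX x := by
      intro x
      have h1 := hdist none x
      rw [h0] at h1
      have h2 : ∀ (K : Type) (b : K → ℕ → ℝ) (hb : ∀ k n, 0 < b k n) (z : Option (K × ℕ)),
          dd b none z = ht b z := by
        intro K b hb z
        rcases z with _ | ⟨k, n⟩
        · rw [dd_self]; rfl
        · simp [dd, br, ht]
      rwa [h2 _ _ bY_pos, h2 _ _ bX_pos] at h1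
    -- image of the first point of the extra branch
    rcases hp : (e ⟨some (none, 0)⟩).pt with _ | ⟨j, m⟩
    · have := hinj _ _ (hp.trans h0.symm)
      simp at this
    rcases hq : (e ⟨some (none, j + 1)⟩).pt with _ | ⟨l, r⟩
    · have := hinj _ _ (hq.trans h0.symm)
      simp at this
    have e1 := hht (some (none, 0))
    have e2 := hht (some (none, j + 1))
    rw [hp] at e1
    rw [hq] at e2
    change bY j m = ((0 : ℕ) : ℝ) + 1 at e1
    change bY l r = ((j + 1 : ℕ) : ℝ) + 1 at e2
    have e3 := hdist (some (none, 0)) (some (none, j + 1))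
    have e4 : dd bX (some (none, 0)) (some (none, j + 1)) = ((j + 1 : ℕ) : ℝ) + 1 := by
      have hne : (some (none, 0) : Option (Option ℕ × ℕ)) ≠ some (none, j + 1) := by simp
      have hbr : br (some (none, 0) : Option (Option ℕ × ℕ)) = br (some (none, j + 1)) := rfl
      rw [dd, if_neg hne, if_pos hbr]
      change max (((0 : ℕ) : ℝ) + 1) (((j + 1 : ℕ) : ℝ) + 1) = _
      rw [max_eq_right]
      push_cast
      linarith [(Nat.cast_nonneg j : (0 : ℝ) ≤ j)]
    rw [hp, hq, e4] at e3
    have hlj : j = l := by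
      by_contra hne
      have hne' : (some (j, m) : Option (ℕ × ℕ)) ≠ some (l, r) := by
        intro h
        simp only [Option.some.injEq, Prod.mk.injEq] at h
        exact hne h.1
      have hb : ¬ br (some (j, m) : Option (ℕ × ℕ)) = br (some (l, r)) := by
        intro h
        apply hne
        simpa [br] using h
      rw [dd, if_neg hne', if_neg hb] at e3
      change bY j m + bY l r = _ at e3
      rw [e1, e2] at e3
      push_cast at e3
      linarith
    subst hlj
    -- the branch `j` has no point of height `j + 2`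
    rw [bY] at e2
    split_ifs at e2 with hrj
    · have : (r : ℝ) = ((j + 1 : ℕ) : ℝ) := by linarith
      have : r = j + 1 := by exact_mod_cast this
      omega
    · have h5 : (1 : ℝ) / (j + 2) < 1 := by
        rw [div_lt_one (by positivity)]
        linarith [(Nat.cast_nonneg j : (0 : ℝ) ≤ j)]
      have h6 : (0 : ℝ) < 1 / (j + 2) := by positivity
      have h7 : (r : ℝ) < ((j + 1 : ℕ) : ℝ) := by linarith
      have h8 : r < j + 1 := by exact_mod_cast h7
      omega

end Pool.Agent.Results.MP_1d6438_gt.NotUnique
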